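import Mathlib
import Pool.Agent.X188.MeanAl2

/-! The fixed points of the mean `λ`-Aluthge transform are exactly the quasi-normal operators. -/

set_option autoImplicit false
open scoped InnerProductSpace ComplexOrder
open Pool.Agent.X188.MeanAl

namespace Pool.Agent.Results.MP_a9e7a9_an.FixedPoints

universe u

noncomputable section

variable {H : Type u} [NormedAddCommGroup H] [InnerProductSpace ℂ H] [CompleteSpace H]

/-- `|T| = (T* T)^{1/2}`. -/
def absOp (T : H →L[ℂ] H) : H →L[ℂ] H := CFC.sqrt (star T * T)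

/-- `|T|^μ`, by continuous functional calculus (so that `|T|^0 = 1`). -/
def absPow (T : H →L[ℂ] H) (μ : ℝ) : H →L[ℂ] H := cfc (fun s : ℝ => s ^ μ) (absOp T)

/-- `T = V |T|` is the canonical polar decomposition: `V` is a partial isometry with
`ker V = ker T`. -/
structure IsPolar (T V : H →L[ℂ] H) : Prop where
  eq : T = V * absOp T
  partialIsometry : V * star V * V = V
  ker : ∀ x, V x = 0 ↔ T x = 0

/-- The `μ`-Aluthge transform `Δ_μ(T) = |T|^μ V |T|^{1-μ}`. -/
def aluthge (T V : H →L[ℂ] H) (μ : ℝ) : H →L[ℂ] H := absPow T μ * V * absPow T (1 - μ)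

/-- The mean transform `M_l(T) = (Δ_l(T) + Δ_{1-l}(T)) / 2`. -/
def meanAluthge (T V : H →L[ℂ] H) (l : ℝ) : H →L[ℂ] H :=
  (1 / 2 : ℝ) • (aluthge T V l + aluthge T V (1 - l))

/-- `T` is quasi-normal: it commutes with `T* T`. -/
def IsQuasinormal (T : H →L[ℂ] H) : Prop := T * (star T * T) = (star T * T) * T

/-- **Main result.** For `0 ≤ l ≤ 1/2`, `M_l(T) = T` if and only if `T` is quasi-normal. -/
theorem result (H : Type u) [NormedAddCommGroup H] [InnerProductSpace ℂ H] [CompleteSpace H]
    (T V : H →L[ℂ] H) (hV : IsPolar T V) (l : ℝ) (hl0 : 0 ≤ l) (hl1 : l ≤ 1 / 2) :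
    meanAluthge T V l = T ↔ IsQuasinormal T := by
  have hP : 0 ≤ absOp T := CFC.sqrt_nonneg _
  have hPs : IsSelfAdjoint (absOp T) := IsSelfAdjoint.of_nonneg hP
  have hPP : absOp T * absOp T = star T * T := by
    unfold absOp
    exact CFC.sqrt_mul_sqrt_self _ (star_mul_self_nonneg T)
  set P := absOp T with hPdef
  have hker : ∀ x, P x = 0 → V x = 0 := by
    intro x hx
    rw [hV.ker]
    have : T x = V (P x) := congrArg (fun f : H →L[ℂ] H => f x) hV.eq
    rw [this, hx, map_zero]
  have hpw : ∀ m, absPow T m = pw P m := fun m => rfl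
  have hl2 : (1 - (1 - l)) = l := by ring
  constructor
  · intro h
    have hE : ∀ x, (2 : ℝ) • V (P x) =
        pw P l (V (pw P (1 - l) x)) + pw P (1 - l) (V (pw P l x)) := by
      intro x
      have h1 : (meanAluthge T V l) x = V (P x) := by
        rw [h]
        exact congrArg (fun f : H →L[ℂ] H => f x) hV.eq
      rw [← h1]
      unfold meanAluthge aluthge
      rw [hl2, hpw, hpw]
      change (2 : ℝ) • ((1 / 2 : ℝ) • (pw P l (V (pw P (1 - l) x)) + pw P (1 - l) (V (pw P l x)))) = _
      rw [smul_smul]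
      norm_num
    have hc := comm_of_eq hP hker hl0 hl1 hE
    unfold IsQuasinormal
    rw [← hPP, hV.eq, ← hPdef]
    rw [mul_assoc V P (P * P), ← mul_assoc P P P, mul_assoc P P (V * P), ← mul_assoc P V P, hc,
      mul_assoc V P P, ← mul_assoc P V (P * P), hc, mul_assoc V P (P * P), mul_assoc P P P]
  · intro h
    have hcT : Commute (star T * T) T := h.symm
    have hcP : Commute P T := by
      rw [hPdef]
      unfold absOp CFC.sqrt
      exact hcT.cfcₙ_nnreal _
    have hc : P * V = V * P := by
      apply comm_of_mul_P hP hker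
      have h1 : P * T = T * P := hcP.eq
      rw [hV.eq, ← hPdef] at h1
      rw [sub_mul, mul_assoc P V P, h1, sub_self]
    have hcV : Commute P V := hc
    have h1 : ∀ m, pw P m * V = V * pw P m := fun m => (hcV.cfc_real _).eq
    unfold meanAluthge aluthge
    rw [hl2, hpw, hpw, h1, h1, mul_assoc, mul_assoc, pw_mul hP hl0 (by linarith)]
    have h2 : pw P (1 - l) * pw P l = P := by
      have := pw_mul hP (l := 1 - l) (by linarith) (by linarith)
      rwa [hl2] at this
    rw [h2, ← hV.eq, ← two_smul ℝ T, smul_smul]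
    norm_num

end

end Pool.Agent.Results.MP_a9e7a9_an.FixedPoints
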